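import Mathlib

set_option autoImplicit false

namespace Pool.Agent.Results.MP_8fcc33_co.Counter

open Finset

/-- `A` is `t`-independent: no signed combination with total absolute coefficient in `[1,t]` vanishes. -/
def Indep {G : Type} [AddCommGroup G] (t : ℕ) (A : Finset G) : Prop :=
  ∀ c : G → ℤ, 1 ≤ ∑ a ∈ A, |c a| → ∑ a ∈ A, |c a| ≤ (t : ℤ) → ∑ a ∈ A, c a • a ≠ 0

/-- The maximum size of a `t`-independent subset of `ZMod n`. -/
noncomputable def tau (n t : ℕ) : ℕ :=
  sSup {m : ℕ | ∃ A : Finset (ZMod n), A.card = m ∧ Indep t A}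

lemma bdd (n t : ℕ) [NeZero n] :
    BddAbove {m : ℕ | ∃ A : Finset (ZMod n), A.card = m ∧ Indep t A} :=
  ⟨Fintype.card (ZMod n), by rintro m ⟨A, rfl, -⟩; exact card_le_univ A⟩

lemma le_one (n : ℕ) [NeZero n]
    (h : ∀ x y : ZMod n, ∃ a ∈ Icc (-5 : ℤ) 5, ∃ b ∈ Icc (-5 : ℤ) 5,
      1 ≤ |a| + |b| ∧ |a| + |b| ≤ 5 ∧ (a : ZMod n) * x + (b : ZMod n) * y = 0) : tau n 5 ≤ 1 := by
  classical
  refine csSup_le ⟨0, ∅, rfl, fun c h1 => by simp at h1⟩ ?_
  rintro m ⟨A, rfl, hA⟩
  by_contra hc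
  obtain ⟨x, hx, y, hy, hxy⟩ := one_lt_card.1 (show 1 < A.card by omega)
  obtain ⟨a, -, b, -, h1, h2, h3⟩ := h x y
  have hs : ({x, y} : Finset (ZMod n)) ⊆ A := by
    intro z hz; simp only [mem_insert, mem_singleton] at hz; rcases hz with rfl | rfl <;> assumption
  let c : ZMod n → ℤ := fun z => if z = x then a else if z = y then b else 0
  have hcx : c x = a := by simp [c]
  have hcy : c y = b := by simp [c, hxy.symm]
  have hc0 : ∀ z ∈ A, z ∉ ({x, y} : Finset (ZMod n)) → c z = 0 := by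
    intro z _ hz
    simp only [mem_insert, mem_singleton, not_or] at hz
    simp [c, hz.1, hz.2]
  have e1 : ∑ z ∈ A, |c z| = |a| + |b| := by
    rw [← sum_subset hs (fun z h1 h2 => by rw [hc0 z h1 h2]; simp), sum_pair hxy, hcx, hcy]
  have e2 : ∑ z ∈ A, c z • z = (a : ZMod n) * x + (b : ZMod n) * y := by
    rw [← sum_subset hs (fun z h1 h2 => by rw [hc0 z h1 h2]; simp), sum_pair hxy, hcx, hcy]
    simp [zsmul_eq_mul]
  exact hA c (by rw [e1]; exact h1) (by rw [e1]; exact_mod_cast h2) (by rw [e2, h3])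

lemma t18 : 2 ≤ tau 18 5 := by
  refine le_csSup (bdd 18 5) ⟨{1, 5}, by decide, ?_⟩
  intro c h1 h2
  have hne : (1 : ZMod 18) ≠ 5 := by decide
  rw [sum_pair hne] at h1 h2 ⊢
  generalize c 1 = a at *
  generalize c 5 = b at *
  have ha : |a| ≤ 5 := by have := abs_nonneg b; push_cast at h2; linarith
  have hb : |b| ≤ 5 := by have := abs_nonneg a; push_cast at h2; linarith
  obtain ⟨ha1, ha2⟩ := abs_le.1 ha
  obtain ⟨hb1, hb2⟩ := abs_le.1 hb
  interval_cases a <;> interval_cases b <;> first | decide | (exfalso; revert h1 h2; decide)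

lemma t20 : tau 20 5 ≤ 1 := le_one 20 (by decide +kernel)

lemma t2 : tau 2 5 ≤ 1 := le_one 2 (by decide +kernel)

theorem result :
    ¬ (Monotone (fun k : ℕ => tau (2 * (k + 1)) 5) ∨ Antitone (fun k : ℕ => tau (2 * (k + 1)) 5)) ∧
    ¬ (∀ t : ℕ, Odd t →
      (Monotone (fun k : ℕ => tau (2 * (k + 1)) t) ∨ Antitone (fun k : ℕ => tau (2 * (k + 1)) t))) := by
  have h : ¬ (Monotone (fun k : ℕ => tau (2 * (k + 1)) 5) ∨
      Antitone (fun k : ℕ => tau (2 * (k + 1)) 5)) := by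
    rintro (h | h)
    · have := h (show 8 ≤ 9 by norm_num)
      have h1 := t18; have h2 := t20
      simp only at this
      norm_num at this
      omega
    · have := h (show 0 ≤ 8 by norm_num)
      have h1 := t18; have h2 := t2
      simp only at this
      norm_num at this
      omega
  exact ⟨h, fun H => h (H 5 (by decide))⟩

end Pool.Agent.Results.MP_8fcc33_co.Counter
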